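import Mathlib
import Pool.Agent.MP_e24c0b_lc.Defs

section

open Polynomial

namespace Pool.Agent.MP_e24c0b_lc

/-- `y` is represented by the binary form `u ^ 2 - a * v ^ 2`. -/
def Nrm {K : Type*} [Field K] (a y : K) : Prop := ∃ u v : K, y = u ^ 2 - a * v ^ 2

section basic
variable {K : Type*} [Field K]

lemma Nrm.mul {a x y : K} (hx : Nrm a x) (hy : Nrm a y) : Nrm a (x * y) := by
  obtain ⟨u, v, rfl⟩ := hx
  obtain ⟨u', v', rfl⟩ := hy
  exact ⟨u * u' + a * v * v', u * v' + u' * v, by ring⟩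

lemma nrm_sq (a w : K) : Nrm a (w ^ 2) := ⟨w, 0, by ring⟩

lemma Nrm.of_mul_sq {a y w : K} (hw : w ≠ 0) (h : Nrm a (y * w ^ 2)) : Nrm a y := by
  obtain ⟨u, v, h⟩ := h
  refine ⟨u / w, v / w, ?_⟩
  field_simp
  exact h

lemma nrm_mul_sq_iff {a y w : K} (hw : w ≠ 0) : Nrm a (y * w ^ 2) ↔ Nrm a y :=
  ⟨Nrm.of_mul_sq hw, fun h => h.mul (nrm_sq a w)⟩

lemma Nrm.of_mul {a f h : K} (hh : h ≠ 0) (h1 : Nrm a (f * h)) (h2 : Nrm a h) : Nrm a f := by
  apply Nrm.of_mul_sq hh
  have := h1.mul h2
  rwa [mul_assoc, ← sq] at this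

lemma Nrm.map {L : Type*} [Field L] (e : K →+* L) {a y : K} (h : Nrm a y) :
    Nrm (e a) (e y) := by
  obtain ⟨u, v, rfl⟩ := h
  exact ⟨e u, e v, by simp⟩

lemma nrm_map_equiv {L : Type*} [Field L] (e : K ≃+* L) {a y : K} :
    Nrm (e a) (e y) ↔ Nrm a y := by
  refine ⟨fun h => ?_, fun h => h.map (e : K →+* L)⟩
  simpa using h.map (e.symm : L →+* K)

lemma nrm_zero_iff {y : K} : Nrm 0 y ↔ IsSquare y := by
  constructor
  · rintro ⟨u, v, h⟩
    exact ⟨u, by rw [h]; ring⟩
  · rintro ⟨u, h⟩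
    exact ⟨u, 0, by rw [h]; ring⟩

end basic

section ratfunc
variable {F : Type*} [Field F]

lemma clear_den {a P : F[X]}
    (h : Nrm (algebraMap F[X] (RatFunc F) a) (algebraMap F[X] (RatFunc F) P)) :
    ∃ u v w : F[X], w ≠ 0 ∧ w ^ 2 * P = u ^ 2 - a * v ^ 2 := by
  obtain ⟨x, y, h⟩ := h
  obtain ⟨u1, w1, hw1, rfl⟩ := IsFractionRing.div_surjective (A := F[X]) x
  obtain ⟨v1, w2, hw2, rfl⟩ := IsFractionRing.div_surjective (A := F[X]) y
  have hw1' : w1 ≠ 0 := nonZeroDivisors.ne_zero hw1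
  have hw2' : w2 ≠ 0 := nonZeroDivisors.ne_zero hw2
  have e1 : algebraMap F[X] (RatFunc F) w1 ≠ 0 := by
    simpa using hw1'
  have e2 : algebraMap F[X] (RatFunc F) w2 ≠ 0 := by
    simpa using hw2'
  refine ⟨u1 * w2, v1 * w1, w1 * w2, mul_ne_zero hw1' hw2', ?_⟩
  apply IsFractionRing.injective F[X] (RatFunc F)
  simp only [map_mul, map_pow, map_sub]
  rw [h]
  field_simp

lemma nrm_descend [Infinite F] {a l : F}
    (h : Nrm (RatFunc.C a : RatFunc F) (RatFunc.C l)) : Nrm a l := by
  rw [← RatFunc.algebraMap_C, ← RatFunc.algebraMap_C] at h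
  obtain ⟨u, v, w, hw, h⟩ := clear_den h
  obtain ⟨x, hx⟩ : ∃ x : F, w.eval x ≠ 0 := by
    by_contra hc
    push Not at hc
    exact hw (Polynomial.funext (by simpa using hc))
  apply Nrm.of_mul_sq hx
  refine ⟨u.eval x, v.eval x, ?_⟩
  have := congrArg (Polynomial.eval x) h
  simp only [eval_mul, eval_pow, eval_C, eval_sub] at this
  rw [← this]; ring

/-- residue lemma -/
lemma residue_aux {p B a : F[X]} (hp : Irreducible p) (hB : ¬ p ∣ B) :
    ∀ n : ℕ, ∀ u v w : F[X], w.natDegree = n → w ≠ 0 →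
      w ^ 2 * (p * B) = u ^ 2 - a * v ^ 2 → ∃ r : F[X], p ∣ r ^ 2 - a := by
  intro n
  induction n using Nat.strong_induction_on with
  | _ n ih =>
    intro u v w hn hw h
    have hpp : Prime p := hp.prime
    by_cases hv : p ∣ v
    · obtain ⟨v', rfl⟩ := hv
      have hu2 : p ∣ u ^ 2 := ⟨w ^ 2 * B + a * p * v' ^ 2, by linear_combination -h⟩
      obtain ⟨u', rfl⟩ := hpp.dvd_of_dvd_pow hu2
      have h2 : w ^ 2 * B = p * (u' ^ 2 - a * v' ^ 2) := by
        apply mul_left_cancel₀ hp.ne_zero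
        linear_combination h
      have hw2 : p ∣ w := by
        rcases hpp.dvd_or_dvd ⟨_, h2⟩ with h3 | h3
        · exact hpp.dvd_of_dvd_pow h3
        · exact absurd h3 hB
      obtain ⟨w', rfl⟩ := hw2
      have hw' : w' ≠ 0 := right_ne_zero_of_mul hw
      have hdeg : w'.natDegree < n := by
        rw [← hn, natDegree_mul hp.ne_zero hw']
        have := hp.natDegree_pos
        omega
      refine ih _ hdeg u' v' w' rfl hw' ?_
      apply mul_left_cancel₀ hp.ne_zero
      linear_combination h2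
    · have hc : IsCoprime p v := hp.coprime_iff_not_dvd.2 hv
      obtain ⟨s, r, hsr⟩ := hc
      refine ⟨u * r, ⟨w ^ 2 * B * r ^ 2 + a * (p * s ^ 2 - 2 * s), ?_⟩⟩
      have h3 : r * v = 1 - s * p := by linear_combination hsr
      have h4 : u ^ 2 = w ^ 2 * (p * B) + a * v ^ 2 := by linear_combination -h
      calc (u * r) ^ 2 - a = u ^ 2 * r ^ 2 - a := by ring
        _ = w ^ 2 * (p * B) * r ^ 2 + a * (r * v) ^ 2 - a := by rw [h4]; ring
        _ = _ := by rw [h3]; ring

lemma residue {p B a : F[X]} (hp : Irreducible p) (hB : ¬ p ∣ B)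
    (h : Nrm (algebraMap F[X] (RatFunc F) a) (algebraMap F[X] (RatFunc F) (p * B))) :
    ∃ r : F[X], p ∣ r ^ 2 - a := by
  obtain ⟨u, v, w, hw, h⟩ := clear_den h
  exact residue_aux hp hB _ u v w rfl hw h

/-- a monic divisor of `r ^ 2 - d` is a norm -/
lemma nrm_of_monic_dvd {d : F} (hd : ¬ IsSquare d) :
    ∀ n : ℕ, ∀ f r : F[X], f.natDegree = n → f.Monic → f ∣ r ^ 2 - C d →
      Nrm (RatFunc.C d : RatFunc F) (algebraMap F[X] (RatFunc F) f) := by
  intro n
  induction n using Nat.strong_induction_on with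
  | _ n ih =>
    intro f r hn hf hr
    by_cases hf1 : f = 1
    · subst hf1
      exact ⟨1, 0, by simp⟩
    set q := r %ₘ f with hq
    have hq1 : f ∣ q ^ 2 - C d := by
      have h1 : r = q + f * (r /ₘ f) := (modByMonic_add_div r f).symm
      have h2 : q ^ 2 - C d = (r ^ 2 - C d) - f * ((r /ₘ f) * (r + q)) := by
        have : r - q = f * (r /ₘ f) := by linear_combination h1
        linear_combination -(r + q) * this
      rw [h2]
      exact dvd_sub hr (dvd_mul_right _ _)
    have hqdeg : q.natDegree < f.natDegree := natDegree_modByMonic_lt r hf hf1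
    by_cases hq0 : q.natDegree = 0
    · exfalso
      obtain ⟨c, hc⟩ := natDegree_eq_zero.1 hq0
      rw [← hc, ← C_pow, ← C_sub] at hq1
      have hne : c ^ 2 - d ≠ 0 := by
        intro h0
        exact hd ⟨c, by linear_combination -h0⟩
      have := natDegree_le_of_dvd hq1 (C_ne_zero.2 hne)
      rw [natDegree_C] at this
      omega
    · obtain ⟨h, hh⟩ := hq1
      have hqne : q ≠ 0 := by
        intro h0; rw [h0] at hq0; simp at hq0
      have hdeg2 : (q ^ 2 - C d).natDegree = 2 * q.natDegree := by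
        rw [natDegree_sub_C, natDegree_pow]
      have hlc : (q ^ 2 - C d).leadingCoeff = q.leadingCoeff ^ 2 := by
        rw [leadingCoeff_sub_of_degree_lt, leadingCoeff_pow]
        apply lt_of_le_of_lt degree_C_le
        rw [← natDegree_pos_iff_degree_pos, natDegree_pow]
        omega
      have hne : q ^ 2 - C d ≠ 0 := by
        intro h0; rw [h0] at hdeg2; simp at hdeg2; omega
      have hhne : h ≠ 0 := by
        intro h0; rw [h0, mul_zero] at hh; exact hne hh
      have hlch : h.leadingCoeff = q.leadingCoeff ^ 2 := by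
        rw [← hlc, hh, leadingCoeff_mul, hf.leadingCoeff, one_mul]
      have hdh : h.natDegree < n := by
        have := natDegree_mul hf.ne_zero hhne
        rw [← hh, hdeg2] at this
        omega
      have hlq : q.leadingCoeff ≠ 0 := leadingCoeff_ne_zero.2 hqne
      set h' := h * C (h.leadingCoeff)⁻¹ with hh'
      have hm : h'.Monic := monic_mul_leadingCoeff_inv hhne
      have hh2 : h = h' * C q.leadingCoeff ^ 2 := by
        rw [hh', hlch, mul_assoc, ← C_pow, ← C_mul, inv_mul_cancel₀ (pow_ne_zero 2 hlq)]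
        simp
      have hd' : h'.natDegree = h.natDegree := by
        rw [hh', natDegree_mul_C (inv_ne_zero (leadingCoeff_ne_zero.2 hhne))]
      have hdvd : h' ∣ q ^ 2 - C d := by
        rw [hh, hh2]
        exact Dvd.dvd.mul_left (dvd_mul_right _ _) _
      have n1 := ih _ (hd' ▸ hdh) h' q rfl hm hdvd
      have n2 : Nrm (RatFunc.C d : RatFunc F) (algebraMap F[X] (RatFunc F) h) := by
        rw [hh2, map_mul, map_pow]
        exact n1.mul (nrm_sq _ _)
      have n3 : Nrm (RatFunc.C d : RatFunc F)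
          (algebraMap F[X] (RatFunc F) f * algebraMap F[X] (RatFunc F) h) := by
        rw [← map_mul, ← hh]
        exact ⟨algebraMap F[X] (RatFunc F) q, 1, by simp⟩
      exact Nrm.of_mul (by simpa using hhne) n3 n2

/-- every nonzero polynomial is a square times a constant, or has a prime of odd order -/
lemma sq_decomp : ∀ n : ℕ, ∀ P : F[X], P.natDegree = n → P ≠ 0 →
    (∃ l : F, ∃ w : F[X], l ≠ 0 ∧ w ≠ 0 ∧ P = C l * w ^ 2) ∨
    (∃ p B w : F[X], Irreducible p ∧ ¬ p ∣ B ∧ w ≠ 0 ∧ P = p * B * w ^ 2) := by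
  intro n
  induction n using Nat.strong_induction_on with
  | _ n ih =>
    intro P hn hP
    by_cases hu : IsUnit P
    · left
      obtain ⟨l, hl, rfl⟩ := Polynomial.isUnit_iff.1 hu
      exact ⟨l, 1, hl.ne_zero, one_ne_zero, by simp⟩
    obtain ⟨p, hp, B, rfl⟩ := WfDvdMonoid.exists_irreducible_factor hu hP
    by_cases hB : p ∣ B
    · obtain ⟨Q, rfl⟩ := hB
      have hQ : Q ≠ 0 := right_ne_zero_of_mul (right_ne_zero_of_mul hP)
      have hdeg : Q.natDegree < n := by
        rw [← hn, natDegree_mul hp.ne_zero (mul_ne_zero hp.ne_zero hQ),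
          natDegree_mul hp.ne_zero hQ]
        have := hp.natDegree_pos
        omega
      rcases ih _ hdeg Q rfl hQ with ⟨l, w, hl, hw, h⟩ | ⟨p', B', w, hp', hB', hw, h⟩
      · exact Or.inl ⟨l, w * p, hl, mul_ne_zero hw hp.ne_zero, by rw [h]; ring⟩
      · exact Or.inr ⟨p', B', w * p, hp', hB', mul_ne_zero hw hp.ne_zero, by rw [h]; ring⟩
    · exact Or.inr ⟨p, B, 1, hp, hB, one_ne_zero, by simp⟩

end ratfunc

end Pool.Agent.MP_e24c0b_lc

end

section

open Polynomial

namespace Pool.Agent.MP_e24c0b_lc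

universe u

section trace
variable {F L : Type*} [Field F] [Field L] [Algebra F L] [FiniteDimensional F L]

lemma trace_eq_zero_of_sq {w : L} {m : F} (hw : w ^ 2 = algebraMap F L m)
    (hm : ¬ IsSquare m) : Algebra.trace F L w = 0 := by
  have hirr : Irreducible (X ^ 2 - C m : F[X]) := by
    apply X_pow_sub_C_irreducible_of_prime Nat.prime_two
    intro b hb
    exact hm ⟨b, by rw [← hb]; ring⟩
  have hmin : minpoly F w = X ^ 2 - C m := by
    symm
    apply minpoly.eq_of_irreducible_of_monic hirr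
    · simp [hw]
    · exact monic_X_pow_sub_C m (by norm_num)
  rw [trace_eq_finrank_mul_minpoly_nextCoeff, hmin]
  have : (X ^ 2 - C m : F[X]).nextCoeff = 0 := by
    rw [nextCoeff_of_natDegree_pos (by rw [natDegree_X_pow_sub_C]; norm_num),
      natDegree_X_pow_sub_C]
    simp [coeff_X_pow]
  rw [this]; simp

lemma finite_squares [CharZero F] {ι : Type*} (a : ι → F) (h0 : ∀ i, a i ≠ 0)
    (h2 : ∀ i j, i ≠ j → ¬ IsSquare (a i * a j)) :
    {i | IsSquare (algebraMap F L (a i))}.Finite := by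
  classical
  set S := {i | IsSquare (algebraMap F L (a i))} with hS
  have hw : ∀ i : S, ∃ w : L, w ^ 2 = algebraMap F L (a i) := by
    rintro ⟨i, w, hw⟩
    exact ⟨w, by rw [hw]; ring⟩
  choose w hw using hw
  have hli : LinearIndependent F w := by
    rw [linearIndependent_iff']
    intro s g hg i hi
    have h1 := congrArg (fun z => Algebra.trace F L (w i * z)) hg
    simp only [Finset.mul_sum, mul_zero, map_zero, map_sum, mul_smul_comm, map_smul] at h1
    rw [Finset.sum_eq_single i] at h1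
    · rw [← sq, hw, Algebra.trace_algebraMap] at h1
      simp only [smul_eq_mul, mul_eq_zero, nsmul_eq_mul, Nat.cast_eq_zero] at h1
      rcases h1 with h1 | h1 | h1
      · exact h1
      · exact absurd h1 Module.finrank_pos.ne'
      · exact absurd h1 (h0 _)
    · intro j _ hji
      rw [trace_eq_zero_of_sq (m := a i * a j), smul_zero]
      · rw [mul_pow, hw, hw, map_mul]
      · exact h2 _ _ (fun h => hji (Subtype.ext h.symm))
    · intro h; exact absurd hi h
  have : Finite S := hli.finite_of_isNoetherian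
  exact Set.toFinite S

end trace

section tower
variable {F : Type u} [Field F] [CharZero F]

lemma exists_tower {ι : Type*} [DecidableEq ι] (a : ι → F) (I : Finset ι) :
    ∃ (κ : Type u) (_ : Field κ) (_ : Algebra F κ), FiniteDimensional F κ ∧
      (∀ i ∈ I, IsSquare (algebraMap F κ (a i))) ∧
      ∀ b : F, IsSquare (algebraMap F κ b) → ∃ J ⊆ I, IsSquare (b * ∏ i ∈ J, a i) := by
  induction I using Finset.induction_on with
  | empty =>
    refine ⟨F, inferInstance, inferInstance, inferInstance, by simp, ?_⟩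
    intro b hb
    exact ⟨∅, by simp, by simpa using hb⟩
  | insert i I hi ih =>
    obtain ⟨κ, _, _, hfin, h1, h2⟩ := ih
    by_cases hsq : IsSquare (algebraMap F κ (a i))
    · refine ⟨κ, inferInstance, inferInstance, hfin, ?_, ?_⟩
      · intro j hj
        rcases Finset.mem_insert.1 hj with rfl | hj
        · exact hsq
        · exact h1 j hj
      · intro b hb
        obtain ⟨J, hJ, h⟩ := h2 b hb
        exact ⟨J, hJ.trans (Finset.subset_insert _ _), h⟩
    · have : CharZero κ := charZero_of_injective_algebraMap (algebraMap F κ).injective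
      have hf : Fact (∀ r : κ, r ^ 2 ≠ algebraMap F κ (a i) + 0 * r) := by
        refine ⟨fun r hr => hsq ⟨r, ?_⟩⟩
        linear_combination -hr
      let κ' := QuadraticAlgebra κ (algebraMap F κ (a i)) 0
      have hmap : ∀ b : F, algebraMap F κ' b = ⟨algebraMap F κ b, 0⟩ := fun b => rfl
      have hre' : ∀ z : κ', (z * z).re = z.re * z.re + algebraMap F κ (a i) * z.im * z.im :=
        fun z => QuadraticAlgebra.re_mul z z
      have him' : ∀ z : κ', (z * z).im = z.re * z.im + z.im * z.re + 0 * z.im * z.im :=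
        fun z => QuadraticAlgebra.im_mul z z
      have : IsScalarTower F κ κ' := inferInstance
      refine ⟨κ', inferInstance, inferInstance, Module.Finite.trans κ κ', ?_, ?_⟩
      · intro j hj
        rcases Finset.mem_insert.1 hj with rfl | hj
        · refine ⟨⟨0, 1⟩, ?_⟩
          rw [hmap]
          ext
          · rw [hre']; simp
          · rw [him']; simp
        · obtain ⟨r, hr⟩ := h1 j hj
          refine ⟨⟨r, 0⟩, ?_⟩
          rw [hmap, hr]
          ext
          · rw [hre']; simp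
          · rw [him']; simp
      · rintro b ⟨z, hz⟩
        rw [hmap] at hz
        have hre := congrArg QuadraticAlgebra.re hz
        have him := congrArg QuadraticAlgebra.im hz
        rw [hre'] at hre
        rw [him'] at him
        simp only at hre him
        have h3 : z.re * z.im = 0 := by
          have : (2 : κ) * (z.re * z.im) = 0 := by linear_combination -him
          exact (mul_eq_zero.1 this).resolve_left two_ne_zero
        rcases mul_eq_zero.1 h3 with h4 | h4
        · have : IsSquare (algebraMap F κ (b * a i)) := by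
            refine ⟨algebraMap F κ (a i) * z.im, ?_⟩
            rw [map_mul, hre, h4]; ring
          obtain ⟨J, hJ, h⟩ := h2 _ this
          refine ⟨insert i J, Finset.insert_subset_insert _ hJ, ?_⟩
          rw [Finset.prod_insert (fun h => hi (hJ h)), ← mul_assoc]
          exact h
        · have : IsSquare (algebraMap F κ b) := ⟨z.re, by rw [hre, h4]; ring⟩
          obtain ⟨J, hJ, h⟩ := h2 _ this
          exact ⟨J, hJ.trans (Finset.subset_insert _ _), h⟩

/-- every finite set is a set of norm parameters -/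
lemma exists_code {ι : Type*} [DecidableEq ι] (a : ι → F)
    (hG : ∀ J : Finset ι, J.Nonempty → ¬ IsSquare (∏ i ∈ J, a i)) (I : Finset ι) :
    ∃ y : RatFunc F, y ≠ 0 ∧ ∀ i, Nrm (RatFunc.C (a i)) y ↔ i ∈ I := by
  obtain ⟨κ, _, _, hfin, h1, h2⟩ := exists_tower a I
  obtain ⟨θ, hθ⟩ := Field.exists_primitive_element F κ
  have hint : IsIntegral F θ := Algebra.IsIntegral.isIntegral θ
  have hirr : Irreducible (minpoly F θ) := minpoly.irreducible hint
  have hmon : (minpoly F θ).Monic := minpoly.monic hint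
  refine ⟨algebraMap F[X] (RatFunc F) (minpoly F θ), by simpa using hmon.ne_zero, fun i => ?_⟩
  constructor
  · intro h
    by_contra hi
    rw [← RatFunc.algebraMap_C, ← mul_one (minpoly F θ)] at h
    obtain ⟨r, hr⟩ := residue hirr (fun h => hirr.not_isUnit (isUnit_of_dvd_one h)) h
    have h3 : aeval θ (r ^ 2 - C (a i)) = 0 := by
      obtain ⟨s, hs⟩ := hr
      rw [hs, map_mul, minpoly.aeval, zero_mul]
    have h4 : IsSquare (algebraMap F κ (a i)) := by
      refine ⟨aeval θ r, ?_⟩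
      simp only [map_sub, map_pow, aeval_C] at h3
      linear_combination -h3
    obtain ⟨J, hJ, h5⟩ := h2 _ h4
    rw [← Finset.prod_insert (fun h => hi (hJ h))] at h5
    exact hG _ (Finset.insert_nonempty _ _) h5
  · intro hi
    obtain ⟨z, hz⟩ := h1 i hi
    have hz2 : z ∈ Algebra.adjoin F {θ} := by
      rw [← IntermediateField.adjoin_simple_toSubalgebra_of_isAlgebraic hint.isAlgebraic, hθ]
      trivial
    rw [Algebra.adjoin_singleton_eq_range_aeval] at hz2
    obtain ⟨r, hr⟩ := hz2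
    have hr' : aeval θ r = z := hr
    have hns : ¬ IsSquare (a i) := by
      simpa using hG {i} (Finset.singleton_nonempty i)
    refine nrm_of_monic_dvd hns _ _ r rfl hmon (minpoly.dvd F θ ?_)
    simp only [map_sub, map_pow, aeval_C, hr', hz]
    ring

/-- the finiteness step -/
lemma finite_step {ι : Type*} (a : ι → F) (h0 : ∀ i, a i ≠ 0)
    (h2 : ∀ i j, i ≠ j → ¬ IsSquare (a i * a j))
    (h3 : ∀ y : F, y ≠ 0 → (∀ i, Nrm (a i) y) ∨ {i | Nrm (a i) y}.Finite)
    (y : RatFunc F) (hy : y ≠ 0) :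
    (∀ i, Nrm (RatFunc.C (a i)) y) ∨ {i | Nrm (RatFunc.C (a i)) y}.Finite := by
  obtain ⟨P, Q, hQ, rfl⟩ := IsFractionRing.div_surjective (A := F[X]) y
  have hQ' : Q ≠ 0 := nonZeroDivisors.ne_zero hQ
  have hP : P ≠ 0 := by
    rintro rfl
    simp at hy
  have eQ : algebraMap F[X] (RatFunc F) Q ≠ 0 := by simpa using hQ'
  have key : ∀ b : RatFunc F, Nrm b (algebraMap F[X] (RatFunc F) P / algebraMap F[X] (RatFunc F) Q)
      ↔ Nrm b (algebraMap F[X] (RatFunc F) (P * Q)) := by
    intro b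
    rw [← nrm_mul_sq_iff eQ, map_mul]
    congr! 1
    field_simp
  simp only [key]
  rcases sq_decomp _ (P * Q) rfl (mul_ne_zero hP hQ') with
    ⟨l, w, hl, hw, h⟩ | ⟨p, B, w, hp, hB, hw, h⟩
  · have ew : algebraMap F[X] (RatFunc F) w ≠ 0 := by simpa using hw
    have key2 : ∀ b : F, Nrm (RatFunc.C b) (algebraMap F[X] (RatFunc F) (P * Q)) ↔ Nrm b l := by
      intro b
      rw [h, map_mul, map_pow, nrm_mul_sq_iff ew, RatFunc.algebraMap_C]
      exact ⟨nrm_descend, fun h => h.map RatFunc.C⟩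
    simp only [key2]
    exact h3 l hl
  · right
    have ew : algebraMap F[X] (RatFunc F) w ≠ 0 := by simpa using hw
    have : Fact (Irreducible p) := ⟨hp⟩
    have : FiniteDimensional F (AdjoinRoot p) := (AdjoinRoot.powerBasis hp.ne_zero).finite
    refine (finite_squares (L := AdjoinRoot p) a h0 h2).subset ?_
    intro i hi
    simp only [Set.mem_ofPred_eq] at hi ⊢
    rw [h, map_mul, map_pow, nrm_mul_sq_iff ew, ← RatFunc.algebraMap_C] at hi
    obtain ⟨r, hr⟩ := residue hp hB hi
    have h4 := AdjoinRoot.mk_eq_zero.2 hr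
    refine ⟨AdjoinRoot.mk p r, ?_⟩
    simp only [map_sub, map_pow, AdjoinRoot.mk_C] at h4
    rw [AdjoinRoot.algebraMap_eq]
    linear_combination -h4

/-- solutions of the cubic Fermat equation in `F(s)` are in `F` -/
lemma cubic_step {x y : RatFunc F} (hx : x ≠ 0) (hy : y ≠ 0) (h : x ^ 3 + y ^ 3 = 1) :
    ∃ a b : F, x = RatFunc.C a ∧ y = RatFunc.C b := by
  obtain ⟨u1, w1, hw1, rfl⟩ := IsFractionRing.div_surjective (A := F[X]) x
  obtain ⟨v1, w2, hw2, rfl⟩ := IsFractionRing.div_surjective (A := F[X]) y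
  have hw1' : w1 ≠ 0 := nonZeroDivisors.ne_zero hw1
  have hw2' : w2 ≠ 0 := nonZeroDivisors.ne_zero hw2
  have e1 : algebraMap F[X] (RatFunc F) w1 ≠ 0 := by simpa using hw1'
  have e2 : algebraMap F[X] (RatFunc F) w2 ≠ 0 := by simpa using hw2'
  have hu1 : u1 ≠ 0 := by
    rintro rfl
    simp at hx
  have hv1 : v1 ≠ 0 := by
    rintro rfl
    simp at hy
  have heq : (u1 * w2) ^ 3 + (v1 * w1) ^ 3 = (w1 * w2) ^ 3 := by
    apply IsFractionRing.injective F[X] (RatFunc F)
    simp only [map_mul, map_pow, map_add]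
    field_simp at h
    linear_combination h
  obtain ⟨d, a', b', c', ⟨ha, hb, hc⟩, ua, ub, uc⟩ :=
    fermatLastTheoremWith'_polynomial (k := F) (n := 3) le_rfl (by norm_num) _ _ _
      (mul_ne_zero hu1 hw2') (mul_ne_zero hv1 hw1') (mul_ne_zero hw1' hw2') heq
  obtain ⟨a, -, rfl⟩ := Polynomial.isUnit_iff.1 ua
  obtain ⟨b, -, rfl⟩ := Polynomial.isUnit_iff.1 ub
  obtain ⟨c, hc0, rfl⟩ := Polynomial.isUnit_iff.1 uc
  have ec : (RatFunc.C c : RatFunc F) ≠ 0 := by simpa using hc0.ne_zero
  have ha' := congrArg (algebraMap F[X] (RatFunc F)) ha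
  have hb' := congrArg (algebraMap F[X] (RatFunc F)) hb
  have hc' := congrArg (algebraMap F[X] (RatFunc F)) hc
  simp only [map_mul, RatFunc.algebraMap_C] at ha' hb' hc'
  refine ⟨a / c, b / c, ?_, ?_⟩
  · rw [map_div₀, div_eq_div_iff e1 ec]
    apply mul_right_cancel₀ e2
    linear_combination (RatFunc.C c) * ha' - RatFunc.C a * hc'
  · rw [map_div₀, div_eq_div_iff e2 ec]
    apply mul_right_cancel₀ e1
    linear_combination (RatFunc.C c) * hb' - RatFunc.C b * hc'

end tower

end Pool.Agent.MP_e24c0b_lc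

end

section

open Polynomial

namespace Pool.Agent.MP_e24c0b_lc

/-- constants are cut out by the cubic Fermat curve -/
def G1 {F : Type} [Field F] (ι : ℂ →+* F) : Prop :=
  ∀ x y : F, x ^ 3 + y ^ 3 = 1 → x ∈ Set.range ι

def G2 {F : Type} [Field F] (ι : ℂ →+* F) (t : F) : Prop :=
  ∀ J : Finset ℂ, J.Nonempty → ¬ IsSquare (∏ c ∈ J, (t - ι c))

def G3 {F : Type} [Field F] (ι : ℂ →+* F) (t : F) : Prop :=
  ∀ y : F, y ≠ 0 → (∀ c, Nrm (t - ι c) y) ∨ {c | Nrm (t - ι c) y}.Finite

def G4 {F : Type} [Field F] (ι : ℂ →+* F) (t : F) : Prop :=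
  ∀ I : Finset ℂ, ∃ y : F, y ≠ 0 ∧ ∀ c, Nrm (t - ι c) y ↔ c ∈ I

def Good (F : Type) [Field F] : Prop := ∃ (ι : ℂ →+* F) (t : F), G1 ι ∧ G2 ι t ∧ G3 ι t

def Great (F : Type) [Field F] : Prop :=
  ∃ (ι : ℂ →+* F) (t : F), G1 ι ∧ G2 ι t ∧ G3 ι t ∧ G4 ι t

variable {F : Type} [Field F]

lemma Great.good (h : Great F) : Good F := by
  obtain ⟨ι, t, h1, h2, h3, -⟩ := h
  exact ⟨ι, t, h1, h2, h3⟩

lemma cube_root_one (ι : ℂ →+* F) {x : F} (h : x ^ 3 = 1) : x ∈ Set.range ι := by
  obtain ⟨s, hs⟩ := IsAlgClosed.exists_eq_mul_self (-3 / 4 : ℂ)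
  have h2 : (-1 / 2 + s) + (-1 / 2 - s) = -1 := by ring
  have h3 : (-1 / 2 + s) * (-1 / 2 - s) = 1 := by linear_combination hs
  have h2' := congrArg ι h2
  have h3' := congrArg ι h3
  rw [map_add, map_neg, map_one] at h2'
  rw [map_mul, map_one] at h3'
  have h4 : (x - 1) * (x - ι (-1 / 2 + s)) * (x - ι (-1 / 2 - s)) = 0 := by
    linear_combination h - (x - 1) * x * h2' + (x - 1) * h3'
  rcases mul_eq_zero.1 h4 with h5 | h5
  · rcases mul_eq_zero.1 h5 with h6 | h6
    · exact ⟨1, by rw [map_one]; linear_combination -h6⟩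
    · exact ⟨_, (sub_eq_zero.1 h6).symm⟩
  · exact ⟨_, (sub_eq_zero.1 h5).symm⟩

lemma G1.step {ι : ℂ →+* F} (h : G1 ι) :
    G1 ((RatFunc.C : F →+* RatFunc F).comp ι) := by
  have : CharZero F := charZero_of_injective_ringHom ι.injective
  intro x y hxy
  by_cases hx : x = 0
  · exact ⟨0, by simp [hx]⟩
  by_cases hy : y = 0
  · apply cube_root_one
    simpa [hy] using hxy
  obtain ⟨a, b, rfl, rfl⟩ := cubic_step hx hy hxy
  have h2 : a ^ 3 + b ^ 3 = 1 := by
    apply (RatFunc.C : F →+* RatFunc F).injective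
    simpa using hxy
  obtain ⟨c, rfl⟩ := h a b h2
  exact ⟨c, rfl⟩

lemma G2.step {ι : ℂ →+* F} {t : F} (h : G2 ι t) :
    G2 ((RatFunc.C : F →+* RatFunc F).comp ι) (RatFunc.C t) := by
  have : CharZero F := charZero_of_injective_ringHom ι.injective
  intro J hJ hsq
  apply h J hJ
  rw [← nrm_zero_iff] at hsq ⊢
  apply nrm_descend
  simpa [map_prod] using hsq

lemma Good.step (h : Good F) : Great (RatFunc F) := by
  classical
  obtain ⟨ι, t, h1, h2, h3⟩ := h
  have : CharZero F := charZero_of_injective_ringHom ι.injective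
  refine ⟨(RatFunc.C : F →+* RatFunc F).comp ι, RatFunc.C t, h1.step, h2.step, ?_, ?_⟩
  · intro y hy
    have := finite_step (fun c : ℂ => t - ι c) (fun c h0 => h2 {c} (Finset.singleton_nonempty c)
      (by simp [h0])) (fun c d hcd => by
        have := h2 {c, d} (Finset.insert_nonempty _ _)
        rwa [Finset.prod_pair hcd] at this) h3 y hy
    simpa using this
  · intro I
    have := exists_code (fun c : ℂ => t - ι c) h2 I
    simpa using this

lemma good_base : Good (RatFunc ℂ) := by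
  classical
  have h1 : G1 (RingHom.id ℂ) := fun x _ _ => ⟨x, rfl⟩
  refine ⟨(RatFunc.C : ℂ →+* RatFunc ℂ).comp (RingHom.id ℂ), RatFunc.X, h1.step, ?_, ?_⟩
  · intro J hJ hsq
    have e : ∏ c ∈ J, ((RatFunc.X : RatFunc ℂ) - ((RatFunc.C : ℂ →+* RatFunc ℂ).comp
        (RingHom.id ℂ)) c) = algebraMap ℂ[X] (RatFunc ℂ) (∏ c ∈ J, (X - C c)) := by
      simp [map_prod]
    rw [e, ← nrm_zero_iff, ← map_zero (algebraMap ℂ[X] (RatFunc ℂ))] at hsq
    obtain ⟨u, v, w, hw, h⟩ := clear_den hsq
    have hd : w ∣ u := by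
      rw [← IsIntegrallyClosed.pow_dvd_pow_iff (n := 2) two_ne_zero]
      exact ⟨∏ c ∈ J, (X - C c), by linear_combination -h⟩
    obtain ⟨s, rfl⟩ := hd
    have h2 : ∏ c ∈ J, (X - C c) = s * s := by
      apply mul_left_cancel₀ (pow_ne_zero 2 hw)
      linear_combination h
    have hsf : Squarefree (∏ c ∈ J, (X - C c) : ℂ[X]) :=
      (separable_prod_X_sub_C_iff'.2 (fun _ _ _ _ h => h)).squarefree
    have hu : IsUnit s := hsf s (by rw [h2])
    have hu2 : IsUnit (∏ c ∈ J, (X - C c) : ℂ[X]) := by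
      rw [h2]; exact hu.mul hu
    obtain ⟨c, hc⟩ := hJ
    exact (irreducible_X_sub_C c).not_isUnit
      (isUnit_of_dvd_unit (Finset.dvd_prod_of_mem (fun c : ℂ => (X - C c : ℂ[X])) hc) hu2)
  · intro y hy
    left
    intro c
    have key : ∀ P : ℂ[X], Nrm ((RatFunc.X : RatFunc ℂ) - RatFunc.C c)
        (algebraMap ℂ[X] (RatFunc ℂ) P) := by
      intro P
      induction P using WfDvdMonoid.induction_on_irreducible with
      | zero => exact ⟨0, 0, by simp⟩
      | unit u hu =>
        obtain ⟨l, -, rfl⟩ := Polynomial.isUnit_iff.1 hu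
        obtain ⟨s, hs⟩ := IsAlgClosed.exists_eq_mul_self l
        exact ⟨RatFunc.C s, 0, by rw [hs]; simp [sq]⟩
      | mul a p _ hp ih =>
        rw [map_mul]
        refine Nrm.mul ?_ ih
        have hdeg := IsAlgClosed.degree_eq_one_of_irreducible ℂ hp
        have hp2 := eq_X_add_C_of_degree_eq_one hdeg
        obtain ⟨β, hβ⟩ := IsAlgClosed.exists_eq_mul_self (-p.leadingCoeff)
        obtain ⟨α, hα⟩ := IsAlgClosed.exists_eq_mul_self (p.coeff 0 + c * p.leadingCoeff)
        refine ⟨RatFunc.C α, RatFunc.C β, ?_⟩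
        have hβ' := congrArg (RatFunc.C : ℂ →+* RatFunc ℂ) hβ
        have hα' := congrArg (RatFunc.C : ℂ →+* RatFunc ℂ) hα
        simp only [map_neg, map_mul, map_add] at hβ' hα'
        have hp3 := congrArg (algebraMap ℂ[X] (RatFunc ℂ)) hp2
        simp only [map_add, map_mul, RatFunc.algebraMap_C, RatFunc.algebraMap_X] at hp3
        rw [hp3]
        linear_combination hα' - (RatFunc.X - RatFunc.C c) * hβ'
    obtain ⟨P, Q, hQ, rfl⟩ := IsFractionRing.div_surjective (A := ℂ[X]) y
    have hQ' : Q ≠ 0 := nonZeroDivisors.ne_zero hQ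
    have eQ : algebraMap ℂ[X] (RatFunc ℂ) Q ≠ 0 := by simpa using hQ'
    apply Nrm.of_mul eQ _ (key Q)
    rw [div_mul_cancel₀ _ eQ]
    exact key P

section transfer
variable {E : Type} [Field E]

lemma G1.transfer (e : F ≃+* E) {ι : ℂ →+* F} (h : G1 ι) : G1 ((e : F →+* E).comp ι) := by
  intro x y hxy
  obtain ⟨x, rfl⟩ := e.surjective x
  obtain ⟨y, rfl⟩ := e.surjective y
  obtain ⟨c, rfl⟩ := h x y (e.injective (by simpa using hxy))
  exact ⟨c, rfl⟩

lemma G2.transfer (e : F ≃+* E) {ι : ℂ →+* F} {t : F} (h : G2 ι t) :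
    G2 ((e : F →+* E).comp ι) (e t) := by
  intro J hJ hsq
  apply h J hJ
  rw [← nrm_zero_iff] at hsq ⊢
  rw [← nrm_map_equiv e]
  simpa [map_prod] using hsq

lemma nrm_transfer (e : F ≃+* E) (ι : ℂ →+* F) (t y : F) (c : ℂ) :
    Nrm (e t - ((e : F →+* E).comp ι) c) (e y) ↔ Nrm (t - ι c) y := by
  rw [← nrm_map_equiv e (a := t - ι c)]
  simp

lemma G3.transfer (e : F ≃+* E) {ι : ℂ →+* F} {t : F} (h : G3 ι t) :
    G3 ((e : F →+* E).comp ι) (e t) := by
  intro y hy
  obtain ⟨y, rfl⟩ := e.surjective y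
  simp only [nrm_transfer]
  exact h y (by simpa using hy)

lemma G4.transfer (e : F ≃+* E) {ι : ℂ →+* F} {t : F} (h : G4 ι t) :
    G4 ((e : F →+* E).comp ι) (e t) := by
  intro I
  obtain ⟨y, hy, h⟩ := h I
  refine ⟨e y, by simpa using hy, fun c => ?_⟩
  rw [nrm_transfer, h]

lemma Good.transfer (e : F ≃+* E) (h : Good F) : Good E := by
  obtain ⟨ι, t, h1, h2, h3⟩ := h
  exact ⟨_, _, h1.transfer e, h2.transfer e, h3.transfer e⟩

lemma Great.transfer (e : F ≃+* E) (h : Great F) : Great E := by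
  obtain ⟨ι, t, h1, h2, h3, h4⟩ := h
  exact ⟨_, _, h1.transfer e, h2.transfer e, h3.transfer e, h4.transfer e⟩

end transfer

lemma bridge {A R K : Type} [CommRing A] [IsDomain A] [CommRing R] [IsDomain R] [Field K]
    [Algebra R K] [IsFractionRing R K] (e : A ≃+* R[X]) :
    Nonempty (RatFunc K ≃+* FractionRing A) := by
  let φ : A →+* RatFunc K :=
    (algebraMap K[X] (RatFunc K)).comp ((mapRingHom (algebraMap R K)).comp (e : A →+* R[X]))
  have hφ : Function.Injective φ :=
    (IsFractionRing.injective K[X] (RatFunc K)).comp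
      ((Polynomial.map_injective _ (IsFractionRing.injective R K)).comp e.injective)
  let : Algebra A (RatFunc K) := φ.toAlgebra
  have : FaithfulSMul A (RatFunc K) := (faithfulSMul_iff_algebraMap_injective _ _).2 hφ
  have hpoly : ∀ P : K[X], ∃ a b : A, b ≠ 0 ∧ algebraMap K[X] (RatFunc K) P * φ b = φ a := by
    intro P
    obtain ⟨b, hb, h⟩ := IsLocalization.integerNormalization_spec (nonZeroDivisors R) P
    refine ⟨e.symm (IsLocalization.integerNormalization (nonZeroDivisors R) P), e.symm (C b),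
      by simpa using nonZeroDivisors.ne_zero hb, ?_⟩
    simp only [φ, RingHom.comp_apply, RingHom.coe_coe, RingEquiv.apply_symm_apply, coe_mapRingHom,
      h, map_C]
    rw [← map_mul, ← IsScalarTower.algebraMap_smul K b P, smul_eq_C_mul, mul_comm]
  have : IsFractionRing A (RatFunc K) := by
    apply IsFractionRing.of_field
    intro z
    obtain ⟨P, Q, hQ, rfl⟩ := IsFractionRing.div_surjective (A := K[X]) z
    have hQ' : Q ≠ 0 := nonZeroDivisors.ne_zero hQ
    have eQ : algebraMap K[X] (RatFunc K) Q ≠ 0 := by simpa using hQ'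
    obtain ⟨a, b, hb, h⟩ := hpoly P
    obtain ⟨a', b', hb', h'⟩ := hpoly Q
    have eb : φ b ≠ 0 := (map_ne_zero_iff _ hφ).2 hb
    have eb' : φ b' ≠ 0 := (map_ne_zero_iff _ hφ).2 hb'
    refine ⟨a * b', a' * b, ?_⟩
    change _ = φ (a * b') / φ (a' * b)
    rw [map_mul, map_mul, ← h, ← h']
    field_simp
  exact ⟨(FractionRing.algEquiv A (RatFunc K)).symm.toRingEquiv⟩

lemma good_succ (k : ℕ) : Good (FractionRing (MvPolynomial (Fin (k + 1)) ℂ)) := by
  induction k with
  | zero =>
    obtain ⟨e⟩ := bridge (A := MvPolynomial (Fin 1) ℂ) (R := ℂ) (K := ℂ)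
      (MvPolynomial.uniqueAlgEquiv ℂ (Fin 1)).toRingEquiv
    exact good_base.transfer e
  | succ k ih =>
    obtain ⟨e⟩ := bridge (K := FractionRing (MvPolynomial (Fin (k + 1)) ℂ))
      (MvPolynomial.finSuccEquiv ℂ (k + 1)).toRingEquiv
    exact (ih.step.transfer e).good

lemma great_of_two_le {k : ℕ} (hk : 2 ≤ k) : Great (FractionRing (MvPolynomial (Fin k) ℂ)) := by
  obtain ⟨k, rfl⟩ : ∃ j, k = j + 1 + 1 := ⟨k - 2, by omega⟩
  obtain ⟨e⟩ := bridge (K := FractionRing (MvPolynomial (Fin (k + 1)) ℂ))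
    (MvPolynomial.finSuccEquiv ℂ (k + 1)).toRingEquiv
  exact (good_succ k).step.transfer e

end Pool.Agent.MP_e24c0b_lc

end

section

namespace Pool.Agent.MP_e24c0b_lc

variable {K : Type} [Field K]

def DP {α : Type} (P : (α → K) → Prop) : Prop :=
  (Set.univ : Set K).Definable ringLang {v | P v}

def DF {α : Type} (f : (α → K) → K) : Prop := (Set.univ : Set K).DefinableFun ringLang f

section calculus
variable {α : Type} {f g : (α → K) → K} {P Q : (α → K) → Prop}

lemma DF.const (a : K) : DF (fun _ : α → K => a) :=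
  FirstOrder.Language.definableFun_const ringLang α (Set.mem_univ a)

lemma DF.var (i : α) : DF (fun v : α → K => v i) := Set.DefinableFun.proj ringLang

lemma DF.pair (hf : DF f) (hg : DF g) :
    (Set.univ : Set K).DefinableMap ringLang (fun v => ![f v, g v]) := by
  intro i
  fin_cases i
  · exact hf
  · exact hg

lemma DF.add (hf : DF f) (hg : DF g) : DF (fun v => f v + g v) :=
  Set.DefinableFun.comp (hf.pair hg)
    (Set.DefinableFun.of_empty (Set.DefinableFun.fun_symbol (L := ringLang) RingSym.add))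

lemma DF.mul (hf : DF f) (hg : DF g) : DF (fun v => f v * g v) :=
  Set.DefinableFun.comp (hf.pair hg)
    (Set.DefinableFun.of_empty (Set.DefinableFun.fun_symbol (L := ringLang) RingSym.mul))

lemma DF.sub (hf : DF f) (hg : DF g) : DF (fun v => f v - g v) := by
  have := hf.add ((DF.const (-1)).mul hg)
  simpa [sub_eq_add_neg] using this

lemma DF.pow (hf : DF f) (n : ℕ) : DF (fun v => f v ^ n) := by
  induction n with
  | zero => simpa using DF.const 1
  | succ n ih => simpa [pow_succ] using ih.mul hf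

lemma DF.lift [Finite α] (hf : DF f) : DF (fun w : α ⊕ Unit → K => f (w ∘ Sum.inl)) :=
  Set.DefinableFun.comp (g := fun w : α ⊕ Unit → K => w ∘ Sum.inl)
    (fun i => DF.var (Sum.inl i)) hf

lemma DF.eq (hf : DF f) (hg : DF g) : DP (fun v => f v = g v) :=
  Set.DefinableFun.ofPred_eq hf hg

lemma DP.and (hP : DP P) (hQ : DP Q) : DP (fun v => P v ∧ Q v) := Set.Definable.inter hP hQ

lemma DP.or (hP : DP P) (hQ : DP Q) : DP (fun v => P v ∨ Q v) := Set.Definable.union hP hQ

lemma DP.not (hP : DP P) : DP (fun v => ¬ P v) := Set.Definable.compl hP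

lemma DP.imp (hP : DP P) (hQ : DP Q) : DP (fun v => P v → Q v) := by
  have := hP.not.or hQ
  simpa only [← imp_iff_not_or] using this

lemma DP.ex {R : K → (α → K) → Prop}
    (h : DP (fun w : α ⊕ Unit → K => R (w (Sum.inr ())) (w ∘ Sum.inl))) :
    DP (fun v => ∃ x, R x v) := by
  have := Set.Definable.exists_of_finite h
  unfold DP
  convert this using 3 with v
  constructor
  · rintro ⟨x, hx⟩
    exact ⟨fun _ => x, hx⟩
  · rintro ⟨x, hx⟩
    exact ⟨x (), hx⟩

lemma DP.all {R : K → (α → K) → Prop}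
    (h : DP (fun w : α ⊕ Unit → K => R (w (Sum.inr ())) (w ∘ Sum.inl))) :
    DP (fun v => ∀ x, R x v) := by
  have := Set.Definable.forall_of_finite h
  unfold DP
  convert this using 3 with v
  constructor
  · intro hx u
    exact hx (u ())
  · intro hx x
    exact hx (fun _ => x)

lemma DF.nrm [Finite α] (hf : DF f) (hg : DF g) : DP (fun v => Nrm (f v) (g v)) := by
  unfold Nrm
  apply DP.ex
  apply DP.ex
  exact DF.eq hg.lift.lift
    (((DF.var _).pow 2).sub (hf.lift.lift.mul ((DF.var _).pow 2)))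

end calculus

/-- `x` is the first coordinate of a point of the cubic Fermat curve -/
def Cst (x : K) : Prop := ∃ y : K, x ^ 3 + y ^ 3 = 1

lemma DF.cst {α : Type} [Finite α] {f : (α → K) → K} (hf : DF f) : DP (fun v => Cst (f v)) := by
  unfold Cst
  apply DP.ex
  exact DF.eq ((hf.lift.pow 3).add ((DF.var _).pow 3)) (DF.const 1)

def NatP (t x : K) : Prop :=
  Cst x ∧ ∃ y : K, ¬ y = 0 ∧ ¬ Nrm (t + 1) y ∧ Nrm (t - x) y ∧
    ∀ c : K, Cst c → Nrm (t - c) y → c = 0 ∨ Nrm (t - (c - 1)) y

lemma DF.natP {α : Type} [Finite α] {f : (α → K) → K} (t : K) (hf : DF f) :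
    DP (fun v => NatP t (f v)) := by
  unfold NatP
  refine hf.cst.and (DP.ex ?_)
  refine (DF.eq (DF.var _) (DF.const 0)).not.and ?_
  refine (DF.nrm (DF.const _) (DF.var _)).not.and ?_
  refine (DF.nrm ((DF.const t).sub hf.lift) (DF.var _)).and ?_
  apply DP.all
  refine (DF.var _).cst.imp ?_
  refine (DF.nrm ((DF.const t).sub (DF.var _)) (DF.var _)).imp ?_
  refine (DF.eq (DF.var _) (DF.const 0)).or ?_
  exact DF.nrm ((DF.const t).sub ((DF.var _).sub (DF.const 1))) (DF.var _)

lemma cst_iff {ι : ℂ →+* K} (h1 : G1 ι) (x : K) : Cst x ↔ x ∈ Set.range ι := by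
  constructor
  · rintro ⟨y, hy⟩
    exact h1 x y hy
  · rintro ⟨c, rfl⟩
    obtain ⟨d, hd⟩ := IsAlgClosed.exists_pow_nat_eq (1 - c ^ 3) (n := 3) (by norm_num)
    refine ⟨ι d, ?_⟩
    rw [← map_pow, ← map_pow, ← map_add, hd]
    simp

lemma natP_iff {ι : ℂ →+* K} {t : K} (h1 : G1 ι) (h3 : G3 ι t) (h4 : G4 ι t) (x : K) :
    NatP t x ↔ ∃ n : ℕ, x = n := by
  classical
  have e1 : t + 1 = t - ι (-1) := by simp
  constructor
  · rintro ⟨hx, y, hy, hn, hxy, hall⟩
    obtain ⟨c, rfl⟩ := (cst_iff h1 _).1 hx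
    by_contra hne
    push Not at hne
    rcases h3 y hy with h | h
    · exact hn (e1 ▸ h _)
    have hmem : ∀ m : ℕ, Nrm (t - ι (c - m)) y := by
      intro m
      induction m with
      | zero => simpa using hxy
      | succ m ih =>
        rcases hall _ ((cst_iff h1 _).2 ⟨_, rfl⟩) ih with h0 | h0
        · exfalso
          apply hne m
          rw [map_sub, map_natCast] at h0
          exact sub_eq_zero.1 h0
        · convert h0 using 2
          simp only [map_sub, map_natCast]
          push_cast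
          ring
    refine Set.infinite_of_injective_forall_mem (f := fun m : ℕ => c - (m : ℂ)) ?_ hmem h
    intro a b hab
    simpa using hab
  · rintro ⟨n, rfl⟩
    refine ⟨(cst_iff h1 _).2 ⟨n, by simp⟩, ?_⟩
    obtain ⟨y, hy, h⟩ := h4 ((Finset.range (n + 1)).image (Nat.cast : ℕ → ℂ))
    refine ⟨y, hy, ?_, ?_, ?_⟩
    · rw [e1, h]
      simp only [Finset.mem_image, Finset.mem_range, not_exists, not_and]
      intro m _ hm
      have : ((m + 1 : ℕ) : ℂ) = 0 := by push_cast; rw [hm]; ring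
      exact Nat.succ_ne_zero m (Nat.cast_eq_zero.1 this)
    · rw [← map_natCast ι, h]
      exact Finset.mem_image_of_mem _ (by simp)
    · intro c hc hcy
      obtain ⟨c, rfl⟩ := (cst_iff h1 _).1 hc
      rw [h] at hcy
      obtain ⟨m, hm, rfl⟩ := Finset.mem_image.1 hcy
      cases m with
      | zero => left; simp
      | succ m =>
        right
        have : ι ((m + 1 : ℕ) : ℂ) - 1 = ι (m : ℂ) := by simp
        rw [this, h]
        refine Finset.mem_image_of_mem _ ?_
        simp only [Finset.mem_range] at hm ⊢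
        omega

theorem Great.definable (h : Great K) :
    (Set.univ : Set K).Definable₁ ringLang (Set.range (Int.cast : ℤ → K)) := by
  obtain ⟨ι, t, h1, -, h3, h4⟩ := h
  have := (DF.natP t (DF.var (0 : Fin 1))).or
    (DF.natP t ((DF.const (0 : K)).sub (DF.var (0 : Fin 1))))
  unfold DP at this
  unfold Set.Definable₁
  convert this using 3 with v
  beta_reduce
  rw [natP_iff h1 h3 h4, natP_iff h1 h3 h4]
  constructor
  · rintro ⟨z, hz⟩
    obtain ⟨n, rfl | rfl⟩ := z.eq_nat_or_neg
    · exact Or.inl ⟨n, by simpa using hz.symm⟩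
    · exact Or.inr ⟨n, by rw [← hz]; simp⟩
  · rintro (⟨n, hn⟩ | ⟨n, hn⟩)
    · exact ⟨n, by simpa using hn.symm⟩
    · exact ⟨-n, by push_cast; linear_combination hn⟩

end Pool.Agent.MP_e24c0b_lc

end
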